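import Pool.Agent.Lib.OrlovNil.Scalar
import Pool.Agent.Lib.OrlovNil.Known

/-!
# Orlov's conjecture for varieties with few cycles over the function field of the base

`𝒳 → B` is a family of smooth projective varieties, `K` is the function field of `B`, and `X` is the
geometric generic member.  `V` is the category of the correspondences of all degrees over the algebraic
closure of `K`, `coh` is the rational cohomology (all degrees together), and `Γ` is the Galois group.

* `FewCycles`: the correspondences of degree at most `0` of `X` over `K`, that is, the cycles of
  codimension at most `dim X` on `X_K × X_K`, are multiples of the diagonal, up to correspondences that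
  factor through `Q`; any finite number of homologically trivial correspondences of `Q` generate a
  nilpotent ring, and some cohomology class of `X` does not come from `Q`.
* `MotiveOver`: `M` is the motive of `X` over an algebraic extension `L` of `K` (for example `K` itself or
  its algebraic closure), in the category `C` of Chow motives over `L` with rational coefficients.
* `OrbitEquiv M M'`: isomorphism in the orbit category of Chow motives over `L` modulo Tate twists.
  By a theorem of Orlov it holds for `M = h(X_L)`, `M' = h(X'_L)` if `X_L` and `X'_L` are derived
  equivalent.
* `FewCycles.Scalar`: big monodromy.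

Examples (all in characteristic zero).

1. `X` is the generic complete intersection in `P`, defined by very ample line bundles (more generally:
   the generic zero scheme of a vector bundle whose sections separate pairs of points), with infinite
   monodromy, and `Q = P` has nilpotent homologically trivial correspondences: projective spaces,
   homogeneous varieties, abelian varieties, products of curves, and the examples that arise in this
   way from them.  Over the complement of the diagonal of `P × P` the fibre product `𝒳 ×_B 𝒳` is an
   open subset of a vector bundle, so `CH(X_K × X_K)` is generated by restrictions from `P × P`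
   and by cycles on the diagonal, and those on the diagonal of codimension at most `dim X` are multiples
   of it.
2. `X` is the generic anticanonical threefold in a maximal projective crepant partial resolution `P` of a
   Gorenstein toric Fano fourfold `P_Δ` (Kreuzer and Skarke: there are 473800776 of them), if the
   lattice is generated by the lattice points of the polytope `Δ` (this is so with at most 16
   exceptions).  The line bundle is base point free, but not ample.  The fibre product `𝒳 ×_B 𝒳` is an open
   subset of a vector bundle over the complement of `R` in `P × P` and over `R`, where `R` is the set of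
   the pairs of points with the same image in the projective space of `H⁰(P_Δ, - K)`; `R` is a finite
   union of torus orbits.  Besides the diagonal, the cycles of codimension at most `3` that arise are
   products, or lie over the strata `O` of dimension `1` and `2` of `P_Δ` (the others have dimension at
   most `2`): they factor through the finite set `X ∩ O` and through the curve `X ∩ O`.  So `Q` is
   a sum of motives of curves and of points, and `H^{3,0}(X) ≠ 0` does not come from `Q`.

How a special member `X_b`, `b ∈ B(k)`, with `D(X_b) = D(X')` leads to an equivalence over `L`, if the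
canonical bundle is trivial, `H^i(X_b, 𝒪) = 0` for `0 < i < dim X`, and `dim X ≥ 3` (this is not part of
the Lean proof): `H^i(X', 𝒪) = 0` for `0 < i < dim X`, if `dim X = 3` by Serre duality and the theorem
of Popa and Schnell, and for complete intersections since for some line bundle `N` on `X_b` the
corresponding object of `D(X')` has nonzero rank (the class in `H(X_b)` that corresponds to a point of
`X'` is isotropic, so it is not primitive), so that `H(X', 𝒪)` is a direct summand of its `Ext`, which
is `H(X_b, 𝒪)`.  So `HH²(X') = H¹(T_{X'})` and `HH¹(X') = 0`, and for each infinitesimal deformation of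
`X_b` there is a unique deformation of `X'` to which the kernel of the equivalence extends.  By
Grothendieck's existence theorem and Artin's approximation theorem there is an étale neighbourhood
`B' → B` of `b`, with a `k`-point over `b`, over which `X'` and the kernel extend.  Take `L = k(B')`:
then `X_L` and `X'_L` are derived equivalent, and the specialisation of cycles at this point is a
functor that sends `h(X_L)` to `h(X_b)` and `h(X'_L)` to `h(X')`.
-/

set_option autoImplicit false

open CategoryTheory CategoryTheory.Limits

namespace Pool.Agent.Results.MP_5c0b30_ag.FewCycles

open Pool.Agent.Lib.OrlovNil Pool.Agent.Lib.MP_5c0b30_ag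

universe v u v₁ u₁ w

/-- Let the homologically trivial self-correspondences of `X` be nilpotent, or let `X` have few cycles
over `K` (which implies it); `L` is an algebraic extension of `K`, and `M` is the motive of `X` over `L`.
Then `M` is a finite direct sum of motives `A k` with local endomorphism rings, which are not isomorphic to
nontrivial twists of themselves; if `X` has few cycles and the monodromy is big then all of
them but one factor through `Q`.  Let `M'` be isomorphic to `M` in the orbit category.  Then `M'` is the
direct sum of twists of the same motives `A k`; every morphism from `M` to `M'` which is injective on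
cohomology is an isomorphism; and `M` and `M'` are isomorphic if they are self-dual and for every `k` the
multiplicities of the twists of `A k` are known up to duality, or `A k` is self-dual and no other
`A l` is a twist of it. -/
theorem result {V : Type u₁} [Category.{v₁} V] [Preadditive V] [Linear ℚ V]
    (coh : V ⥤ ModuleCat.{0} ℚ) [coh.Additive] {X : V} [FiniteDimensional ℚ (coh.obj X)]
    {Γ : Type w} [Group Γ] [MulSemiringAction Γ (End X)]
    (hX : HomNil coh X ∨ ∃ Q : V, Nonempty (FewCycles coh X Q Γ))
    {U : Subgroup Γ} {C : Type u} [Category.{v} C] [Preadditive C] [Linear ℚ C]
    [HasFiniteBiproducts C] [HasBinaryBiproducts C] [IsIdempotentComplete C] [HasShift C ℤ]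
    [∀ n : ℤ, (shiftFunctor C n).Additive] {M : C} (E : MotiveOver coh X U M) :
    HomNil coh X ∧ ∃ (m : ℕ) (A : Fin m → C) (s : M ≅ ⨁ A),
      (∀ k, IsLocalRing (End (A k))) ∧
      (∀ k, ∀ n : ℤ, n ≠ 0 → IsEmpty (A k ≅ (A k)⟦n⟧)) ∧
      (∀ (Q : V) (F : FewCycles coh X Q Γ), F.Scalar → ∃ k₀, ∀ k, k ≠ k₀ →
        E.proj s k ∈ Through X Q ∧ ∀ i : ℤ, IsEmpty (A k ≅ (A k₀)⟦i⟧)) ∧
      ∀ (M' : C) (e : OrbitEquiv M M'),
        (∃ n : Fin m → ℤ, Nonempty (M' ≅ ⨁ fun k => (A k)⟦n k⟧)) ∧
        (∀ φ : M ⟶ M', Function.Injective (coh.map (E.transfer e φ : X ⟶ X)).hom → IsIso φ) ∧
        ∀ Θ : Cᵒᵖ ≌ C, (∀ (A : C) (n : ℤ), Nonempty (Θ.functor.obj (Opposite.op (A⟦n⟧)) ≅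
            (Θ.functor.obj (Opposite.op A))⟦-n⟧)) →
          Nonempty (Θ.functor.obj (Opposite.op M) ≅ M) →
          Nonempty (Θ.functor.obj (Opposite.op M') ≅ M') →
          (∀ k, Known Θ (A k) M M' ∨ (Nonempty (Θ.functor.obj (Opposite.op (A k)) ≅ A k) ∧
            ∀ l, l ≠ k → ∀ i : ℤ, IsEmpty (A l ≅ (A k)⟦i⟧))) →
          Nonempty (M ≅ M') := by
  have hN : HomNil coh X := by
    rcases hX with h | ⟨Q, ⟨F⟩⟩
    · exact h
    · exact homNil F
  refine ⟨hN, ?_⟩
  obtain ⟨m, A, ⟨s⟩, hloc, hfree⟩ := E.exists_pieces hN
  refine ⟨m, A, s, hloc, hfree, fun Q F hs => ?_, fun M' e => ⟨exists_twists hloc hfree s e,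
    fun φ hφ => E.isIso_of_injective hN e φ hφ, fun Θ hΘ hM hM' hk =>
    iso_of_known hloc hfree s e Θ hΘ hM hM' hk⟩⟩
  obtain ⟨k₀, h₀, h⟩ := E.exists_unique_piece F hs s
  exact ⟨k₀, fun k hk => ⟨h k hk, fun i => E.isEmpty_iso_twist F s h₀ (h k hk) i⟩⟩

end Pool.Agent.Results.MP_5c0b30_ag.FewCycles
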