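import Pool.Agent.Lib.OrlovHK.Summand

/-!
# Chow motives of isogenous hyper-Kähler varieties

`C` is the category of Chow motives with rational coefficients over a finite Galois extension `L` of
the function field `K` of the parameter space of a family of hyper-Kähler varieties of
`K3^[n]`-type, with the Tate twists `X ↦ X⟦n⟧`, and `W X` is the total cohomology of `X`.

* `N` is the motive over `L` of the generic member of a family over which the correspondences are
  understood (Fano varieties of lines of cubic fourfolds, Hilbert schemes of quartic surfaces or of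
  double planes): `D` is the action of the Galois group `G` of `L` over `K` on the correspondences.
* `M` and `M'` are the motives over `L` of the generic members of two families of the same type with
  (rationally) isometric Hodge structures `H²`. By Markman and Maulik-Shen-Yin-Zhang they are
  related by twisted derived equivalences to each other and to the model, which gives `hN` and the
  isomorphism `e` between `M` and `M'` in the orbit category `Hom(X, Y) = ⨁ n : ℤ, Hom_C(X, Y⟦n⟧)`,
  compatible with the Looijenga-Lunts-Verbitsky Lie algebras `so(V)`, `so(V')`, where `V`, `V'` are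
  the extended Mukai lattices, with algebraic parts `S.A`, `S'.A`.
* `F` is the specialisation of the motives with good reduction at a point of the parameter space.
-/

set_option autoImplicit false

open CategoryTheory CategoryTheory.Limits

namespace Pool.Agent.Results.MP_5c0b30_ag.HyperKahlerIsogeny

open Pool.Agent.Lib.MP_5c0b30_ag Pool.Agent.Lib.OrlovHK

universe v₀ u₀ v u w w₁

theorem result {C : Type u} [Category.{v} C] [Preadditive C] [Linear ℚ C] [HasShift C ℤ]
    [∀ n : ℤ, (shiftFunctor C n).Additive] {W : C → Type w} [∀ X, AddCommGroup (W X)]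
    [∀ X, Module ℚ (W X)] (T : TotalRealization C W) {δ : ℚ} {N M M' : C} {G : Type}
    [Group G] [Finite G] (D : GaloisAction T N G) (hN : TwistSummand M N)
    [FiniteDimensional ℚ (W M')] {V : Type w₁} [AddCommGroup V] [Module ℚ V] {V' : Type w₁}
    [AddCommGroup V'] [Module ℚ V'] (S : ExtMukaiAction T δ M V) (S' : ExtMukaiAction T δ M' V')
    (e : OrbitEquiv M M') (φ : V ≃ₗ[ℚ] V') (c : ℚ) (hc : c ≠ 0)
    (hφ : ∀ x y : V, S'.B (φ x) (φ y) = c * S.B x y) (hφA : ∀ x : V, x ∈ S.A ↔ φ x ∈ S'.A)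
    (he : ∀ x y : V, c • (T.total e.hom ∘ₗ S.ρ x y) = S'.ρ (φ x) (φ y) ∘ₗ T.total e.hom)
    (P : ObjectProperty C) {C₀ : Type u₀} [Category.{v₀} C₀] (F : P.FullSubcategory ⥤ C₀)
    (hP : P M) (hP' : P M') :
    (∀ X : C, TwistSummand X N → T.TrivialRadical X) ∧ T.TrivialRadical M' ∧
    Nonempty (F.obj ⟨M, hP⟩ ≅ F.obj ⟨M', hP'⟩) ∧
    ∃ (i : M ≅ M') (ψ : V ≃ₗ[ℚ] V') (t s : ℚ), t ≠ 0 ∧ s = t ^ 2 * c ∧
      ψ S.α = S'.α ∧ ψ S.β = s • S'.β ∧
      (∀ x y : V, S'.B (ψ x) (ψ y) = s * S.B x y) ∧ (∀ x : V, x ∈ S.A ↔ ψ x ∈ S'.A) ∧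
      (∀ x : V, (∀ y ∈ S.A, S.B y x = 0) → ψ x = t • φ x) ∧
      (∀ x y : V, s • (T.act (ShiftedHom.mk₀ (0 : ℤ) rfl i.hom) ∘ₗ S.ρ x y) =
        S'.ρ (ψ x) (ψ y) ∘ₗ T.act (ShiftedHom.mk₀ (0 : ℤ) rfl i.hom)) ∧
      ∀ y : V, T.act (ShiftedHom.mk₀ (0 : ℤ) rfl i.hom) ∘ₗ S.ρ S.β y =
        S'.ρ S'.β (ψ y) ∘ₗ T.act (ShiftedHom.mk₀ (0 : ℤ) rfl i.hom) := by
  have h1 : ∀ X : C, TwistSummand X N → T.TrivialRadical X := fun X hX => D.trivialRadical hX
  have h2 : T.TrivialRadical M' := D.trivialRadical' hN e.toOrbitIso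
  have h3 := HyperKahler.result T S S' e φ c hc hφ hφA he (h1 M hN) h2
  obtain ⟨i, h4⟩ := h3
  refine ⟨h1, h2, ⟨F.mapIso ?_⟩, i, h4⟩
  exact P.isoMk i

end Pool.Agent.Results.MP_5c0b30_ag.HyperKahlerIsogeny
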