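import Pool.Agent.Lib.OrlovCurves.Main
import Pool.Agent.Lib.OrlovCurves.Fit

/-!
# Orlov's conjecture for Chow motives, modulo the motives of curves

`C` is the category of Chow motives with rational coefficients over a field or over a base `S`, with
the Tate twists `X ↦ X⟦n⟧`, and `I` is an ideal of morphisms, for example those that factor through
twists of motives of curves, or, over `S`, do so at all points of `S`. By Orlov, a derived
equivalence of smooth projective varieties (over `S`) gives an isomorphism `e` between their motives
`M` and `M'` in the orbit category `Hom(X, Y) = ⨁ n : ℤ, Hom_C(X, Y⟦n⟧)`.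
-/

set_option autoImplicit false

open CategoryTheory CategoryTheory.Limits

namespace Pool.Agent.Results.MP_5c0b30_ag.ModuloCurves

open Pool.Agent.Lib.OrlovCurves Pool.Agent.Lib.MP_5c0b30_ag

universe v u v' u'

/-- Assume that `M` and `M'` have isomorphic realizations, or are isomorphic in the orbit category
with multiplicities known up to duality. Then `M` and `M'` are isomorphic if (and only if) they are
isomorphic modulo `I`. This holds if all components of negative degree (or all components of positive
degree) of an isomorphism of the orbit category and of its inverse belong to `I`, or if such an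
isomorphism commutes with a morphism `N` of degree one which satisfies the hard Lefschetz theorem
modulo `I`. -/
theorem result {C : Type u} [Category.{v} C] [Preadditive C] [Linear ℚ C] [HasFiniteBiproducts C]
    [IsIdempotentComplete C] [HasShift C ℤ] [∀ n : ℤ, (shiftFunctor C n).Additive] {M M' : C}
    (I : TwistIdeal C) (h : Realized.{v, u, v', u'} I M M' ∨ Counted I M M') :
    (Nonempty (M ≅ M') ↔ I.Isom M M') ∧
      ∀ e : OrbitEquiv M M', OneSided I e ∨ Lefschetz I e → Nonempty (M ≅ M') := by
  have key : I.Isom M M' → Nonempty (M ≅ M') := by
    intro hi
    rcases h with ⟨V, _, _, _, _, H, _, hfin, hV, hnil, hdet, hH⟩ | ⟨𝒜, h1, h2, h3, h4, h5⟩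
    · have hbb : HasBinaryBiproducts C := hasBinaryBiproducts_of_finite_biproducts C
      exact iso_of_fitting I H hfin hV hnil hdet hH hi
    · exact iso_of_isom.{v, u, v', u'} h1 I h2 h3 (Or.inr ⟨h4, h5⟩) hi
  exact ⟨⟨isom_of_iso I, key⟩, fun e he => key (isom_of_or I e he)⟩

end Pool.Agent.Results.MP_5c0b30_ag.ModuloCurves
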