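import Pool.Agent.Lib.OrlovRel.Final

/-!
# Orlov's conjecture for Chow motives of varieties that are derived equivalent over a base

`C` is a `ℚ`-linear category with an additive action `X ↦ X⟦n⟧` of `ℤ` (Chow motives with rational
coefficients over a subfield of `ℂ`, or polarizable rational Hodge structures, and the Tate twists),
`T` is its realization in total cohomology, `M`, `M'` are the motives (or the cohomology) of two
smooth projective varieties of dimension `d`, `X` and `X'` are the Hodge-Lefschetz data on their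
cohomology, and `P`, `P'` are the cup products with nef classes (pullbacks of an ample class of the
base, or zero, or `± c₁`).  By Orlov, a derived equivalence that is linear over the base gives an
isomorphism `e` between `M` and `M'` in the orbit category `Hom(X, Y) = ⨁ n : ℤ, Hom_C(X, Y⟦n⟧)`,
which preserves the generalised Mukai pairings and commutes with the nef classes.
-/

set_option autoImplicit false

open CategoryTheory

namespace Pool.Agent.Results.MP_5c0b30_ag.RelativeChow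

open Pool.Agent.Lib.OrlovSig Pool.Agent.Lib.OrlovNef Pool.Agent.Lib.MP_5c0b30_ag
  Pool.Agent.Lib.OrlovRel Pool.Agent.Lib.OrlovNef.HL

universe v u w

theorem result {C : Type u} [Category.{v} C] [Preadditive C] [Linear ℚ C] [HasShift C ℤ]
    [∀ n : ℤ, (shiftFunctor C n).Additive] {W : C → Type w} [∀ X, AddCommGroup (W X)]
    [∀ X, Module ℚ (W X)] (T : TotalRealization C W) {d : ℕ} {M M' : C}
    [FiniteDimensional ℚ (W M)] [FiniteDimensional ℚ (W M')] (X : HL d (W M))
    (X' : HL d (W M')) (hX : Standard T X) (hX' : Standard T X')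
    (h₁₁ : Corr T X X) (h₁₂ : Corr T X X') (h₂₁ : Corr T X' X) (h₂₂ : Corr T X' X')
    (hM : T.TrivialRadical M) (hM' : T.TrivialRadical M') (P : X.Nef) (P' : X'.Nef)
    (hP : ∃ f : M ⟶ M⟦(1 : ℤ)⟧, T.act f = P.op) (hP' : ∃ f : M' ⟶ M'⟦(1 : ℤ)⟧, T.act f = P'.op)
    (e : OrbitEquiv M M')
    (he : ∀ x y : W M, X'.mukai (T.total e.hom x) (T.total e.hom y) = X.mukai x y)
    (hN : ∀ x : W M, T.total e.hom (P.op x) = P'.op (T.total e.hom x)) :
    (∀ m ≤ d, ∀ a, AlgPrim T P P' m (blockSet (d - m) a)) ∧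
    (∀ m j, m + j ≤ d → (∀ i, m + i ≤ d → i ≠ j → block (d - m) i = block (d - m) j →
      AlgPrim T P P' m {i}) → AlgPrim T P P' m {j} ∧ AlgPrim T P P' m {2 * (d - m) - j}) ∧
    (∀ K : Set (ℕ × ℕ), (∀ t ∈ K, AlgPrim T P P' t.1 {t.2}) →
      (∀ m ≤ d, ∀ e < 2, (∀ i j, m + i ≤ d → m + j ≤ d → i % 2 = e → j % 2 = e →
          block (d - m) i = block (d - m) j → (m, i) ∉ K → (m, j) ∉ K → i = j) ∨
        ((m, e) ∈ K ∧ ∀ j, 1 < j → m + j < d → j % 2 = e → NoPrim P m j)) →
      ∃ i : M ≅ M', ∀ x, T.act (ShiftedHom.mk₀ (0 : ℤ) rfl i.hom) (P.op x) =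
        P'.op (T.act (ShiftedHom.mk₀ (0 : ℤ) rfl i.hom) x)) ∧
    ∀ r, (∀ j, j + r ≤ d → ∀ x, (P.op ^ (d - r - j)) (X.pr j x) = 0 → X.pr j x = 0) →
      (∀ j, j + r ≤ d → ∀ x, (P'.op ^ (d - r - j)) (X'.pr j x) = 0 → X'.pr j x = 0) →
      (∀ m j, d ≤ m + j + r → m + j + 2 < d → AlgPrim T P P' m {j}) →
      ∃ i : M ≅ M', ∀ x, T.act (ShiftedHom.mk₀ (0 : ℤ) rfl i.hom) (P.op x) =
        P'.op (T.act (ShiftedHom.mk₀ (0 : ℤ) rfl i.hom) x) := by
  let u : W M ≃ₗ[ℚ] W M' := LinearEquiv.ofLinearMap (T.total e.hom) (T.total e.inv)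
    (T.total_inv_hom e) (T.total_hom_inv e)
  have hu : u.toLinearMap ∈ T.alg M M' := T.total_mem e.hom
  have hu' : u.symm.toLinearMap ∈ T.alg M' M := T.total_mem e.inv
  have hPa : P.op ∈ T.alg M M := by
    obtain ⟨f, hf⟩ := hP
    rw [← hf]
    exact T.act_mem f
  have hPa' : P'.op ∈ T.alg M' M' := by
    obtain ⟨f, hf⟩ := hP'
    rw [← hf]
    exact T.act_mem f
  have h := motivic_alg hX hX' h₁₁ h₁₂ h₂₁ h₂₂
  have hPS : b11 (W M') P.op ∈ algRing T M M' := mem_algRing.2 (blk11 hPa)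
  have hPS' : b22 (W M) P'.op ∈ algRing T M M' := mem_algRing.2 (blk22 hPa')
  have main := fun K hK hh => iso_of_prim hX hX' h₁₁ h₁₂ h₂₁ h₂₂ hM hM' hPa hPa' u hu hu' he hN
    K hK hh
  refine ⟨fun m hm a => ?_, fun m j hmj hi => ?_, main, fun r hL hL' hi => ?_⟩
  · exact sprim_iff.1 (h.prim_block P P' hPS hPS' u (b21_mem.2 hu) (b12_mem.2 hu') he hN m hm a)
  · obtain ⟨h1, h2⟩ := h.prim_cancel P P' hPS hPS' u (b21_mem.2 hu) (b12_mem.2 hu') he hN m j hmj
      (fun i hid hij hb => sprim_iff.2 (hi i hid hij hb))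
    exact ⟨sprim_iff.1 h1, sprim_iff.1 h2⟩
  · refine main {t | t.1 + t.2 + 2 < d} ?_ ?_
    · rintro ⟨m, j⟩ hmj
      rw [Set.mem_ofPred_eq] at hmj
      dsimp only at hmj ⊢
      rcases Nat.lt_or_ge (m + j + r) d with h1 | h1
      · refine ⟨0, Submodule.zero_mem _, 0, Submodule.zero_mem _, fun x hx => ?_, fun y hy => ?_⟩
        · rw [LinearMap.zero_apply, LinearMap.zero_apply, map_zero]
          exact ⟨rfl, fun _ => Low.zero _ _, P.low_of_lefschetz r hL m j h1 x hx⟩
        · rw [LinearMap.zero_apply, LinearMap.zero_apply, map_zero]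
          exact ⟨rfl, fun _ => Low.zero _ _, P'.low_of_lefschetz r hL' m j h1 y hy⟩
      · exact hi m j h1 hmj
    · intro m hm e _
      refine Or.inl (fun i j hmi hmj _ _ hb h1 h2 => ?_)
      rw [Set.mem_ofPred_eq, not_lt] at h1 h2
      dsimp only at h1 h2
      unfold block at hb
      split_ifs at hb <;> omega

end Pool.Agent.Results.MP_5c0b30_ag.RelativeChow
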